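import Mathlib
import Pool.Agent.Idem.Mat
import Pool.Agent.Idem.Closed
set_option autoImplicit false
open Finset Filter

namespace Pool.Agent.Results.MP_c00610_co.ClosedForm

/-- The number of `n × n` Boolean matrices `A` with `A² = A` for the Boolean (max-min) product is
asymptotic to `3 θ_n √(2/(π n)) 2^{n²/4 + 2n}`, where `θ_n = ∑_{j ∈ ℤ} 2^{-j²}` for even `n` and
`θ_n = ∑_{j ∈ ℤ} 2^{-(j+1/2)²}` for odd `n`. -/
theorem result :
    Tendsto (fun n : ℕ =>
      (Nat.card {A : Matrix (Fin n) (Fin n) Bool //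
        ∀ i j, (Finset.univ.sup fun k => A i k ⊓ A k j) = A i j} : ℝ) /
      (3 * (if Even n then ∑' j : ℤ, (2 : ℝ) ^ (-((j : ℝ) ^ 2))
          else ∑' j : ℤ, (2 : ℝ) ^ (-(((j : ℝ) + 1 / 2) ^ 2)))
        * Real.sqrt (2 / (Real.pi * n)) * (2 : ℝ) ^ ((n : ℝ) ^ 2 / 4 + 2 * n)))
      atTop (nhds 1) := by
  have h1 := IdemCount.tendsto_idn
  have h2 := IdemCount.Clo.tendsto_f_div_g
  have h3 := h1.mul h2
  rw [one_mul] at h3
  refine h3.congr fun n => ?_
  have hf := (IdemCount.f_pos n).ne'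
  rw [IdemCount.card_matrix]
  show _ = _ / IdemCount.Clo.g n
  rw [div_mul_div_comm, mul_comm (IdemCount.f n), mul_div_mul_right _ _ hf]

end Pool.Agent.Results.MP_c00610_co.ClosedForm
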