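import Mathlib
import Pool.Agent.Idem.Mat
set_option autoImplicit false
open Finset Filter

namespace Pool.Agent.Results.MP_c00610_co.IdemAsymp

/-- The number of `n × n` Boolean matrices `A` with `A² = A` for the Boolean (max-min) product is
asymptotic to `∑_{b=0}^{n} C(n,b) 2^{(b+1)(n-b)} (2^b + 2^{n-b})`. -/
theorem result :
    Tendsto (fun n : ℕ =>
      (Nat.card {A : Matrix (Fin n) (Fin n) Bool //
        ∀ i j, (Finset.univ.sup fun k => A i k ⊓ A k j) = A i j} : ℝ) /
      (∑ b ∈ Finset.range (n + 1),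
        (n.choose b : ℝ) * 2 ^ ((b + 1) * (n - b)) * ((2 : ℝ) ^ b + 2 ^ (n - b))))
      atTop (nhds 1) := by
  have h := IdemCount.tendsto_idn
  refine h.congr fun n => ?_
  rw [IdemCount.card_matrix, IdemCount.Fn.f_eq]
  congr 1
  refine Finset.sum_congr rfl fun b _ => ?_
  rw [show (b + 1) * (n - b) = (n - b) + b * (n - b) by ring, pow_add]
  ring

end Pool.Agent.Results.MP_c00610_co.IdemAsymp
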